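import Pool.Agent.W785.DF.Stubs

/-!
Agmon's inequality on `ℤ³`.
-/

set_option autoImplicit false

namespace Pool.Agent.W646.DF.Agmon

open Pool.Agent.W785.DF hiding sq

open H459R3.NS (K3)

/-- sup norm -/
def NN (k : K3) : ℕ := Finset.univ.sup fun j => (k j).natAbs

theorem le_NN (k : K3) (j : Fin 3) : (k j).natAbs ≤ NN k :=
  Finset.le_sup (f := fun j => (k j).natAbs) (Finset.mem_univ j)

theorem exists_NN (k : K3) : ∃ j, NN k = (k j).natAbs := by
  obtain ⟨j, -, hj⟩ := Finset.exists_mem_eq_sup (Finset.univ : Finset (Fin 3))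
    Finset.univ_nonempty (fun j => (k j).natAbs)
  exact ⟨j, hj⟩

theorem NN_sq_le (k : K3) : (NN k : ℝ) ^ 2 ≤ Pool.Agent.W785.DF.sq k := by
  obtain ⟨j, hj⟩ := exists_NN k
  have h1 : ((NN k : ℕ) : ℝ) ^ 2 = (k j : ℝ) ^ 2 := by
    rw [hj]
    have : (((k j).natAbs : ℕ) : ℝ) = |(k j : ℝ)| := by
      rw [Nat.cast_natAbs, Int.cast_abs]
    rw [this, sq_abs]
  rw [h1]
  unfold Pool.Agent.W785.DF.sq
  exact Finset.single_le_sum (f := fun j => (k j : ℝ) ^ 2) (fun i _ => sq_nonneg _)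
    (Finset.mem_univ j)

theorem NN_pos {k : K3} (hk : k ≠ 0) : 1 ≤ NN k := by
  by_contra hcon
  apply hk
  funext j
  have := le_NN k j
  have h0 : (k j).natAbs = 0 := by omega
  exact Int.natAbs_eq_zero.1 h0

/-- a face of the cube -/
noncomputable def face (n : ℕ) (j : Fin 3) (e : ℤ) : Finset K3 :=
  Fintype.piFinset fun i => if i = j then {e} else Finset.Icc (-(n : ℤ)) n

theorem card_face (n : ℕ) (j : Fin 3) (e : ℤ) : (face n j e).card = (2 * n + 1) ^ 2 := by
  unfold face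
  rw [Fintype.card_piFinset, Fin.prod_univ_three]
  have h : (Finset.Icc (-(n : ℤ)) n).card = 2 * n + 1 := by
    rw [Int.card_Icc]
    omega
  fin_cases j <;> simp [h] <;> ring

theorem mem_face {k : K3} {n : ℕ} (h : NN k = n) :
    ∃ j : Fin 3, k ∈ face n j n ∨ k ∈ face n j (-(n : ℤ)) := by
  obtain ⟨j, hj⟩ := exists_NN k
  refine ⟨j, ?_⟩
  have hk : k j = (n : ℤ) ∨ k j = -(n : ℤ) := by
    rw [h] at hj
    omega
  have hall : ∀ i, k i ∈ Finset.Icc (-(n : ℤ)) n := by
    intro i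
    have := le_NN k i
    rw [Finset.mem_Icc]
    omega
  rcases hk with hk | hk
  · left
    unfold face
    rw [Fintype.mem_piFinset]
    intro i
    split_ifs with hi
    · rw [hi, hk]
      exact Finset.mem_singleton_self _
    · exact hall i
  · right
    unfold face
    rw [Fintype.mem_piFinset]
    intro i
    split_ifs with hi
    · rw [hi, hk]
      exact Finset.mem_singleton_self _
    · exact hall i

theorem card_shell (S : Finset K3) (n : ℕ) (hn : 1 ≤ n) :
    ((S.filter fun k => NN k = n).card : ℝ) ≤ 54 * (n : ℝ) ^ 2 := by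
  have hsub : (S.filter fun k => NN k = n) ⊆
      Finset.univ.biUnion fun j : Fin 3 => face n j n ∪ face n j (-(n : ℤ)) := by
    intro k hk
    rw [Finset.mem_filter] at hk
    obtain ⟨j, hj⟩ := mem_face hk.2
    rw [Finset.mem_biUnion]
    exact ⟨j, Finset.mem_univ _, Finset.mem_union.2 hj⟩
  have h1 := Finset.card_le_card hsub
  have h2 : (Finset.univ.biUnion fun j : Fin 3 => face n j n ∪ face n j (-(n : ℤ))).card ≤
      ∑ j : Fin 3, 2 * (2 * n + 1) ^ 2 := by
    refine Finset.card_biUnion_le.trans (Finset.sum_le_sum fun j _ => ?_)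
    refine (Finset.card_union_le _ _).trans ?_
    rw [card_face, card_face]
    omega
  have h3 : (S.filter fun k => NN k = n).card ≤ 6 * (2 * n + 1) ^ 2 := by
    refine (h1.trans h2).trans (le_of_eq ?_)
    simp
    ring
  have h4 : ((S.filter fun k => NN k = n).card : ℝ) ≤ 6 * (2 * (n : ℝ) + 1) ^ 2 := by
    exact_mod_cast h3
  have h5 : (1 : ℝ) ≤ n := by exact_mod_cast hn
  nlinarith

theorem tele {α : ℝ} (hα : 0 < α) (M : ℕ) :
    ∑ n ∈ Finset.range M, 1 / (α ^ 2 + ((n : ℝ) + 1) ^ 2) ≤ 2 / α := by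
  have h : ∀ M : ℕ, ∑ n ∈ Finset.range M, 1 / (α ^ 2 + ((n : ℝ) + 1) ^ 2) ≤
      2 / α - 2 / (α + M) := by
    intro M
    induction M with
    | zero => simp
    | succ M ih =>
      rw [Finset.sum_range_succ]
      have h1 : 1 / (α ^ 2 + ((M : ℝ) + 1) ^ 2) ≤ 2 / (α + M) - 2 / (α + (M + 1)) := by
        have hM : (0 : ℝ) ≤ M := Nat.cast_nonneg M
        rw [div_sub_div _ _ (by positivity) (by positivity), div_le_div_iff₀ (by positivity)
          (by positivity)]
        nlinarith [sq_nonneg (α - ((M : ℝ) + 1)), mul_nonneg hα.le hM]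
      push_cast
      linarith
  have h2 := h M
  have h3 : 0 ≤ 2 / (α + M) := by positivity
  linarith

theorem sum_le (S : Finset K3) (h0 : (0 : K3) ∉ S) {α : ℝ} (hα : 0 < α) :
    ∑ k ∈ S, 1 / (Pool.Agent.W785.DF.sq k * (α ^ 2 + Pool.Agent.W785.DF.sq k)) ≤ 108 / α := by
  obtain ⟨M, hM⟩ : ∃ M : ℕ, ∀ k ∈ S, NN k ≤ M := ⟨S.sup NN, fun k hk => Finset.le_sup hk⟩
  have hmap : ∀ k ∈ S, NN k - 1 ∈ Finset.range M := by
    intro k hk
    have h1 := NN_pos (ne_of_mem_of_not_mem hk h0)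
    have h2 := hM k hk
    rw [Finset.mem_range]
    omega
  rw [← Finset.sum_fiberwise_of_maps_to hmap]
  calc ∑ n ∈ Finset.range M, ∑ k ∈ S with NN k - 1 = n, 1 / (Pool.Agent.W785.DF.sq k * (α ^ 2 + Pool.Agent.W785.DF.sq k))
      ≤ ∑ n ∈ Finset.range M, 54 * (1 / (α ^ 2 + ((n : ℝ) + 1) ^ 2)) := by
        apply Finset.sum_le_sum
        intro n _
        have hfil : (S.filter fun k => NN k - 1 = n) = S.filter fun k => NN k = n + 1 := by
          apply Finset.filter_congr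
          intro k hk
          have h1 := NN_pos (ne_of_mem_of_not_mem hk h0)
          omega
        rw [hfil]
        have hle : ∀ k ∈ S.filter (fun k => NN k = n + 1), 1 / (Pool.Agent.W785.DF.sq k * (α ^ 2 + Pool.Agent.W785.DF.sq k)) ≤
            1 / (((n : ℝ) + 1) ^ 2 * (α ^ 2 + ((n : ℝ) + 1) ^ 2)) := by
          intro k hk
          rw [Finset.mem_filter] at hk
          have h1 := NN_sq_le k
          rw [hk.2] at h1
          push_cast at h1
          apply one_div_le_one_div_of_le (by positivity)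
          have h2 : 0 < α ^ 2 := by positivity
          have h3 : (0 : ℝ) ≤ ((n : ℝ) + 1) ^ 2 := by positivity
          nlinarith
        refine (Finset.sum_le_sum hle).trans ?_
        rw [Finset.sum_const, nsmul_eq_mul]
        have hc := card_shell S (n + 1) (by omega)
        push_cast at hc
        calc ((S.filter fun k => NN k = n + 1).card : ℝ) *
              (1 / (((n : ℝ) + 1) ^ 2 * (α ^ 2 + ((n : ℝ) + 1) ^ 2))) ≤
              54 * ((n : ℝ) + 1) ^ 2 * (1 / (((n : ℝ) + 1) ^ 2 * (α ^ 2 + ((n : ℝ) + 1) ^ 2))) :=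
              mul_le_mul_of_nonneg_right hc (by positivity)
          _ = 54 * (1 / (α ^ 2 + ((n : ℝ) + 1) ^ 2)) := by
              field_simp
    _ = 54 * ∑ n ∈ Finset.range M, 1 / (α ^ 2 + ((n : ℝ) + 1) ^ 2) := by
        rw [Finset.mul_sum]
    _ ≤ 54 * (2 / α) := mul_le_mul_of_nonneg_left (tele hα M) (by norm_num)
    _ = 108 / α := by ring

theorem main : S_agmon := by
  refine ⟨216 ^ 2, by norm_num, ?_⟩
  intro S h0 a
  have hsq : ∀ k ∈ S, 1 ≤ Pool.Agent.W785.DF.sq k := by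
    intro k hk
    have h1 := NN_sq_le k
    have h2 : (1 : ℝ) ≤ NN k := by exact_mod_cast NN_pos (ne_of_mem_of_not_mem hk h0)
    nlinarith
  have hY0 : 0 ≤ Y2 S a := Finset.sum_nonneg fun k hk => by
    have := hsq k hk
    positivity
  have hYD : Y2 S a ≤ D2 S a := by
    unfold Y2 D2
    apply Finset.sum_le_sum
    intro k hk
    have h1 := hsq k hk
    apply mul_le_mul_of_nonneg_right _ (sq_nonneg _)
    nlinarith
  rcases hY0.eq_or_lt with hY | hY
  · have hall : ∀ k ∈ S, ‖a k‖ = 0 := by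
      have h1 : ∑ k ∈ S, Pool.Agent.W785.DF.sq k * ‖a k‖ ^ 2 = 0 := hY.symm
      rw [Finset.sum_eq_zero_iff_of_nonneg (fun k hk => by have := hsq k hk; positivity)] at h1
      intro k hk
      have h2 := h1 k hk
      have h3 := hsq k hk
      rcases mul_eq_zero.1 h2 with h4 | h4
      · linarith
      · exact pow_eq_zero_iff (two_ne_zero) |>.1 h4
    have hL : L1 S a = 0 := Finset.sum_eq_zero hall
    rw [hL, ← hY]
    simp
  · have hD : 0 < D2 S a := hY.trans_le hYD
    set α : ℝ := Real.sqrt (D2 S a / Y2 S a) with hαdef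
    have hα : 0 < α := Real.sqrt_pos.2 (div_pos hD hY)
    have hα2 : α ^ 2 = D2 S a / Y2 S a := Real.sq_sqrt (div_pos hD hY).le
    have hCS : L1 S a ^ 2 ≤ (∑ k ∈ S, 1 / (Pool.Agent.W785.DF.sq k * (α ^ 2 + Pool.Agent.W785.DF.sq k))) *
        ∑ k ∈ S, Pool.Agent.W785.DF.sq k * (α ^ 2 + Pool.Agent.W785.DF.sq k) * ‖a k‖ ^ 2 := by
      have h := Finset.sum_mul_sq_le_sq_mul_sq S
        (fun k => 1 / Real.sqrt (Pool.Agent.W785.DF.sq k * (α ^ 2 + Pool.Agent.W785.DF.sq k)))
        (fun k => Real.sqrt (Pool.Agent.W785.DF.sq k * (α ^ 2 + Pool.Agent.W785.DF.sq k)) * ‖a k‖)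
      have e1 : ∀ k ∈ S, 1 / Real.sqrt (Pool.Agent.W785.DF.sq k * (α ^ 2 + Pool.Agent.W785.DF.sq k)) *
          (Real.sqrt (Pool.Agent.W785.DF.sq k * (α ^ 2 + Pool.Agent.W785.DF.sq k)) * ‖a k‖) = ‖a k‖ := by
        intro k hk
        have h1 := hsq k hk
        have h2 : 0 < Real.sqrt (Pool.Agent.W785.DF.sq k * (α ^ 2 + Pool.Agent.W785.DF.sq k)) := Real.sqrt_pos.2 (by positivity)
        field_simp
      have e2 : ∀ k ∈ S, (1 / Real.sqrt (Pool.Agent.W785.DF.sq k * (α ^ 2 + Pool.Agent.W785.DF.sq k))) ^ 2 =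
          1 / (Pool.Agent.W785.DF.sq k * (α ^ 2 + Pool.Agent.W785.DF.sq k)) := by
        intro k hk
        have h1 := hsq k hk
        rw [div_pow, one_pow, Real.sq_sqrt (by positivity)]
      have e3 : ∀ k ∈ S, (Real.sqrt (Pool.Agent.W785.DF.sq k * (α ^ 2 + Pool.Agent.W785.DF.sq k)) * ‖a k‖) ^ 2 =
          Pool.Agent.W785.DF.sq k * (α ^ 2 + Pool.Agent.W785.DF.sq k) * ‖a k‖ ^ 2 := by
        intro k hk
        have h1 := hsq k hk
        rw [mul_pow, Real.sq_sqrt (by positivity)]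
      rw [Finset.sum_congr rfl e1, Finset.sum_congr rfl e2, Finset.sum_congr rfl e3] at h
      exact h
    have hsum : ∑ k ∈ S, Pool.Agent.W785.DF.sq k * (α ^ 2 + Pool.Agent.W785.DF.sq k) * ‖a k‖ ^ 2 = 2 * D2 S a := by
      have : ∑ k ∈ S, Pool.Agent.W785.DF.sq k * (α ^ 2 + Pool.Agent.W785.DF.sq k) * ‖a k‖ ^ 2 = α ^ 2 * Y2 S a + D2 S a := by
        unfold Y2 D2
        rw [Finset.mul_sum, ← Finset.sum_add_distrib]
        apply Finset.sum_congr rfl
        intro k _
        ring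
      rw [this, hα2]
      field_simp
      ring
    rw [hsum] at hCS
    have h1 : L1 S a ^ 2 ≤ 108 / α * (2 * D2 S a) :=
      hCS.trans (mul_le_mul_of_nonneg_right (sum_le S h0 hα) (by positivity))
    have h2 : L1 S a ^ 4 ≤ (108 / α * (2 * D2 S a)) ^ 2 := by
      have : L1 S a ^ 4 = (L1 S a ^ 2) ^ 2 := by ring
      rw [this]
      exact pow_le_pow_left₀ (sq_nonneg _) h1 2
    refine h2.trans (le_of_eq ?_)
    rw [mul_pow, div_pow, hα2]
    field_simp
    ring

end Pool.Agent.W646.DF.Agmon
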